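import Pool.Agent.TH324.LS.LSC_CLRKb

set_option autoImplicit false

/-! # CLRK: radially decreasing functions of bounded radius (job 2447 for helper280) -/

open MeasureTheory Set
open scoped ENNReal

namespace Pool.Agent.TH324.CLRK

open Pool.Agent.TH280.LS

variable {m : ℕ}

/-- Hölder with the weight `|y|^A` -/
lemma holder (hm : 0 < m) {p A R1 : ℝ} (hp : 2 ≤ p) (G : (Fin m → ℝ) → ℝ≥0∞)
    (hG : Measurable G) (hG0 : ∀ y, R1 < nr y → G y = 0) (η : Fin m → ℝ) :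
    (∫⁻ y, G y * ENNReal.ofReal (Kr y η)) ^ p ≤
      (∫⁻ y, G y ^ p * (ENNReal.ofReal (nr y ^ A) * ENNReal.ofReal (Kr y η))) *
      (∫⁻ y in {y : Fin m → ℝ | nr y ≤ R1},
        ENNReal.ofReal (nr y ^ (-(A / (p - 1)))) * ENNReal.ofReal (Kr y η)) ^ (p - 1) := by
  have hp0 : 0 < p := by linarith
  have hp1 : 0 < p - 1 := by linarith
  set q : ℝ := p / (p - 1) with hq
  have hq0 : 0 < q := by positivity
  have hpq : p.HolderConjugate q := Real.HolderConjugate.conjExponent (by linarith)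
  set μ : Measure (Fin m → ℝ) := volume.withDensity (fun y => ENNReal.ofReal (Kr y η)) with hμ
  have hK : Measurable fun y : Fin m → ℝ => ENNReal.ofReal (Kr y η) := (Kr_meas_y η).ennreal_ofReal
  set f : (Fin m → ℝ) → ℝ≥0∞ := fun y => G y * ENNReal.ofReal (nr y ^ (A / p)) with hf
  set g : (Fin m → ℝ) → ℝ≥0∞ := {y : Fin m → ℝ | nr y ≤ R1}.indicator
    (fun y => ENNReal.ofReal (nr y ^ (-(A / p)))) with hg
  have hfm : Measurable f := hG.mul (measurable_nr.pow_const _).ennreal_ofReal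
  have hgm : Measurable g := ((measurable_nr.pow_const _).ennreal_ofReal).indicator (meas_ball R1)
  have h1 : ∫⁻ y, G y * ENNReal.ofReal (Kr y η) = ∫⁻ y, (f * g) y ∂μ := by
    rw [hμ, lintegral_withDensity_eq_lintegral_mul _ hK (hfm.mul hgm)]
    refine lintegral_congr_ae ?_
    filter_upwards [ae_pos hm] with y hy
    simp only [Pi.mul_apply, hf, hg]
    by_cases h : nr y ≤ R1
    · rw [indicator_of_mem (by exact h)]
      have h2 : ENNReal.ofReal (nr y ^ (A / p)) * ENNReal.ofReal (nr y ^ (-(A / p))) = 1 := by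
        rw [← ENNReal.ofReal_mul (by positivity), ← Real.rpow_add hy]
        simp
      calc G y * ENNReal.ofReal (Kr y η)
          = ENNReal.ofReal (Kr y η) * (G y * (ENNReal.ofReal (nr y ^ (A / p)) *
            ENNReal.ofReal (nr y ^ (-(A / p))))) := by rw [h2, mul_one, mul_comm]
        _ = _ := by ring
    · rw [indicator_of_notMem (by exact h), hG0 y (not_le.1 h)]
      simp
  have h2 := ENNReal.lintegral_mul_le_Lp_mul_Lq μ hpq hfm.aemeasurable hgm.aemeasurable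
  have h3 : ∫⁻ y, f y ^ p ∂μ =
      ∫⁻ y, G y ^ p * (ENNReal.ofReal (nr y ^ A) * ENNReal.ofReal (Kr y η)) := by
    rw [hμ, lintegral_withDensity_eq_lintegral_mul _ hK (hfm.pow_const p)]
    refine lintegral_congr fun y => ?_
    simp only [Pi.mul_apply, hf]
    rw [ENNReal.mul_rpow_of_nonneg _ _ hp0.le, ENNReal.ofReal_rpow_of_nonneg
      (Real.rpow_nonneg (nr_nonneg y) _) hp0.le, ← Real.rpow_mul (nr_nonneg y),
      div_mul_cancel₀ _ hp0.ne']
    ring
  have h4 : ∫⁻ y, g y ^ q ∂μ = ∫⁻ y in {y : Fin m → ℝ | nr y ≤ R1},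
        ENNReal.ofReal (nr y ^ (-(A / (p - 1)))) * ENNReal.ofReal (Kr y η) := by
    rw [hμ, lintegral_withDensity_eq_lintegral_mul _ hK (hgm.pow_const q),
      ← lintegral_indicator (meas_ball R1)]
    refine lintegral_congr fun y => ?_
    simp only [Pi.mul_apply, hg]
    by_cases h : nr y ≤ R1
    · rw [indicator_of_mem (by exact h), indicator_of_mem (by exact h),
        ENNReal.ofReal_rpow_of_nonneg (Real.rpow_nonneg (nr_nonneg y) _) hq0.le,
        ← Real.rpow_mul (nr_nonneg y)]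
      have : -(A / p) * q = -(A / (p - 1)) := by
        rw [hq]; field_simp
      rw [this]
      ring
    · rw [indicator_of_notMem (by exact h), indicator_of_notMem (by exact h),
        ENNReal.zero_rpow_of_pos hq0, mul_zero]
  rw [h1]
  calc (∫⁻ y, (f * g) y ∂μ) ^ p
      ≤ ((∫⁻ y, f y ^ p ∂μ) ^ (1 / p) * (∫⁻ y, g y ^ q ∂μ) ^ (1 / q)) ^ p :=
        ENNReal.rpow_le_rpow h2 hp0.le
    _ = (∫⁻ y, f y ^ p ∂μ) * (∫⁻ y, g y ^ q ∂μ) ^ (p - 1) := by
        rw [ENNReal.mul_rpow_of_nonneg _ _ hp0.le, ← ENNReal.rpow_mul, ← ENNReal.rpow_mul]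
        have e1 : 1 / p * p = 1 := by field_simp
        have e2 : 1 / q * p = p - 1 := by rw [hq]; field_simp
        rw [e1, e2, ENNReal.rpow_one]
    _ = _ := by rw [h3, h4]

lemma J_bound (hm : 0 < m) {γ R1 : ℝ} (hR1 : 1 ≤ R1) (η : Fin m → ℝ) :
    ∫⁻ y in {y : Fin m → ℝ | nr y ≤ R1},
        ENNReal.ofReal (nr y ^ (-γ)) * ENNReal.ofReal (Kr y η) ≤
      ENNReal.ofReal ((1 + nr η) ^ (-be m)) * (ENNReal.ofReal (R1 ^ be m) *
        ∫⁻ y in {y : Fin m → ℝ | nr y ≤ R1}, ENNReal.ofReal (nr y ^ (-(γ + be m)))) := by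
  have hη := nr_nonneg η
  have hβ := be_pos m
  rw [← lintegral_const_mul' _ _ ENNReal.ofReal_ne_top,
    ← lintegral_const_mul' _ _ ENNReal.ofReal_ne_top]
  refine lintegral_mono_ae ?_
  refine (ae_restrict_iff' (meas_ball R1)).mpr ?_
  filter_upwards [ae_pos hm] with y hy hyR
  have hyR' : nr y ≤ R1 := hyR
  have hR0 : 0 < R1 := by linarith
  rw [← ENNReal.ofReal_mul (by positivity), ← ENNReal.ofReal_mul (by positivity),
    ← ENNReal.ofReal_mul (by positivity)]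
  apply ENNReal.ofReal_le_ofReal
  have h1 : Kr y η ≤ (nr y / R1 * (1 + nr η)) ^ (-be m) := by
    unfold Kr
    apply Real.rpow_le_rpow_of_nonpos (by positivity)
    · have h2 : nr y / R1 ≤ 1 := by rw [div_le_one hR0]; exact hyR'
      have h3 : nr y / R1 * nr η ≤ nr y * nr η := by
        apply mul_le_mul_of_nonneg_right _ hη
        exact div_le_self hy.le hR1
      nlinarith
    · linarith
  have h4 : (nr y / R1 * (1 + nr η)) ^ (-be m) =
      nr y ^ (-be m) * R1 ^ be m * (1 + nr η) ^ (-be m) := by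
    rw [Real.mul_rpow (by positivity) (by positivity), Real.div_rpow hy.le hR0.le,
      Real.rpow_neg hR0.le, div_inv_eq_mul]
  have h5 : nr y ^ (-(γ + be m)) = nr y ^ (-γ) * nr y ^ (-be m) := by
    rw [← Real.rpow_add hy]; congr 1; ring
  calc nr y ^ (-γ) * Kr y η ≤ nr y ^ (-γ) * (nr y / R1 * (1 + nr η)) ^ (-be m) := by
        gcongr
    _ = (1 + nr η) ^ (-be m) * (R1 ^ be m * nr y ^ (-(γ + be m))) := by
        rw [h4, h5]; ring

lemma pw {p A s2 : ℝ} (hp : 2 ≤ p) (hA : 0 < A) (hAβ : A ≤ be m)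
    {y η : Fin m → ℝ} (hy : 0 < nr y) (hη : 0 < nr η) :
    (nr η ^ m) ^ (p - 2) * kp m s2 η ^ p * ((1 + nr η) ^ (-be m)) ^ (p - 1) *
        (nr y ^ A * Kr y η) ≤
      (1 + nr η) ^ ((m : ℝ) * (p - 2) - s2 * p - be m * (p - 1)) * nr η ^ (-A) := by
  have h1 : 0 < 1 + nr η := by linarith
  have hb := be_pos m
  have e1 : (nr η ^ m) ^ (p - 2) ≤ (1 + nr η) ^ ((m : ℝ) * (p - 2)) := by
    rw [← Real.rpow_natCast, ← Real.rpow_mul hη.le]
    exact Real.rpow_le_rpow hη.le (by linarith) (mul_nonneg (Nat.cast_nonneg m) (by linarith))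
  have e2 : kp m s2 η ^ p = (1 + nr η) ^ (-(s2 * p)) := by
    unfold kp
    rw [← Real.rpow_mul h1.le]
    congr 1; ring
  have e3 : ((1 + nr η) ^ (-be m)) ^ (p - 1) = (1 + nr η) ^ (-(be m * (p - 1))) := by
    rw [← Real.rpow_mul h1.le]
    congr 1; ring
  have e4 : nr y ^ A * Kr y η ≤ nr η ^ (-A) := by
    unfold Kr
    have h2 : 1 ≤ 1 + nr y * nr η := one_le_base y η
    have h3 : (1 + nr y * nr η) ^ (-be m) ≤ (nr y * nr η) ^ (-A) := by
      calc (1 + nr y * nr η) ^ (-be m) ≤ (1 + nr y * nr η) ^ (-A) :=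
            Real.rpow_le_rpow_of_exponent_le h2 (by linarith)
        _ ≤ (nr y * nr η) ^ (-A) :=
            Real.rpow_le_rpow_of_nonpos (by positivity) (by linarith) (by linarith)
    calc nr y ^ A * (1 + nr y * nr η) ^ (-be m) ≤ nr y ^ A * (nr y * nr η) ^ (-A) := by gcongr
      _ = (nr y ^ A * nr y ^ (-A)) * nr η ^ (-A) := by
          rw [Real.mul_rpow hy.le hη.le]; ring
      _ = nr η ^ (-A) := by
          rw [← Real.rpow_add hy]; simp
  have e5 : (1 + nr η) ^ ((m : ℝ) * (p - 2) - s2 * p - be m * (p - 1)) =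
      (1 + nr η) ^ ((m : ℝ) * (p - 2)) * (1 + nr η) ^ (-(s2 * p)) *
        (1 + nr η) ^ (-(be m * (p - 1))) := by
    rw [← Real.rpow_add h1, ← Real.rpow_add h1]
    congr 1
  rw [e2, e3, e5]
  have h6 : 0 ≤ nr y ^ A * Kr y η := mul_nonneg (by positivity) (Kr_pos y η).le
  gcongr

/-- the bound for `F(|y|)` -/
lemma core (hm : 2 ≤ m) {p s2 R0 : ℝ} (hp : 2 ≤ p) (hs2 : 0 < s2)
    (hs : ((m : ℝ) - 1) / 2 - m / p < s2) (hB : S_BALL) :
    ∃ K : ℝ≥0∞, K < ∞ ∧ ∀ F : ℝ → ℝ, AntitoneOn F (Ici 0) → (∀ r, R0 < r → F r = 0) →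
      Integrable (fun y : Fin m → ℝ => F (nr y)) →
      ∫⁻ η : Fin m → ℝ, ENNReal.ofReal ((nr η ^ m) ^ (p - 2) * kp m s2 η ^ p) *
        ‖ftm m (fun y => ((F (nr y) : ℝ) : ℂ)) η‖ₑ ^ p ≤
      K * ∫⁻ y : Fin m → ℝ, ‖((F (nr y) : ℝ) : ℂ)‖ₑ ^ p := by
  have hm0 : 0 < m := by omega
  have hmR : (2 : ℝ) ≤ m := by exact_mod_cast hm
  have hp0 : 0 < p := by linarith
  have hp1 : 0 < p - 1 := by linarith
  obtain ⟨C1, hC1, hball⟩ := ball_bound hB hm0
  -- the exponent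
  have hβ : be m = ((m : ℝ) + 1) / 2 := rfl
  obtain ⟨A, hA1, hA2⟩ : ∃ A : ℝ, max 0 (((m : ℝ) - 1) * (p - 1) / 2 - s2 * p) < A ∧
      A < min (((m : ℝ) - 1) * (p - 1) / 2) (be m) := by
    apply exists_between
    rw [max_lt_iff, lt_min_iff, lt_min_iff]
    have h1 : 0 < ((m : ℝ) - 1) * (p - 1) / 2 := by
      have : 0 < ((m : ℝ) - 1) * (p - 1) := mul_pos (by linarith) hp1
      linarith
    refine ⟨⟨h1, be_pos m⟩, ?_, ?_⟩
    · have : 0 < s2 * p := by positivity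
      linarith
    · have h2 : (((m : ℝ) - 1) / 2 - m / p) * p < s2 * p := mul_lt_mul_of_pos_right hs hp0
      have h3 : (((m : ℝ) - 1) / 2 - m / p) * p = ((m : ℝ) - 1) / 2 * p - m := by
        field_simp
      rw [h3] at h2
      rw [hβ]
      nlinarith
  rw [max_lt_iff] at hA1
  rw [lt_min_iff] at hA2
  obtain ⟨hA0, hA1⟩ := hA1
  obtain ⟨hA2, hA3⟩ := hA2
  set R1 : ℝ := max R0 1 with hR1
  have hR11 : 1 ≤ R1 := le_max_right _ _
  set γ : ℝ := A / (p - 1) with hγ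
  have hγβ : γ + be m < m := by
    have h1 : γ < ((m : ℝ) - 1) / 2 := by
      rw [hγ, div_lt_iff₀ hp1]
      linarith
    rw [hβ]
    linarith
  set c2 : ℝ≥0∞ := ENNReal.ofReal (R1 ^ be m) *
        ∫⁻ y in {y : Fin m → ℝ | nr y ≤ R1}, ENNReal.ofReal (nr y ^ (-(γ + be m))) with hc2
  have hc2f : c2 < ∞ := ENNReal.mul_lt_top ENNReal.ofReal_lt_top (fin_ball hm0 hγβ)
  set θ : ℝ := (m : ℝ) * (p - 2) - s2 * p - be m * (p - 1) with hθ
  set c3 : ℝ≥0∞ := ∫⁻ η : Fin m → ℝ, ENNReal.ofReal ((1 + nr η) ^ θ * nr η ^ (-A)) with hc3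
  have hc3f : c3 < ∞ := by
    apply fin_all hm0
    · have : be m ≤ m := by rw [hβ]; linarith
      linarith
    · rw [hθ, hβ]
      nlinarith
  set K : ℝ≥0∞ := ENNReal.ofReal C1 ^ p * c2 ^ (p - 1) * c3 with hK
  have hKf : K < ∞ := by
    refine ENNReal.mul_lt_top (ENNReal.mul_lt_top ?_ ?_) hc3f
    · exact ENNReal.rpow_lt_top_of_nonneg hp0.le ENNReal.ofReal_ne_top
    · exact ENNReal.rpow_lt_top_of_nonneg hp1.le hc2f.ne
  refine ⟨K, hKf, fun F hF hR0 hint => ?_⟩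
  have hg0 : ∀ y : Fin m → ℝ, 0 ≤ F (nr y) := fun y => prof_nonneg hF hR0 (nr_nonneg y)
  have hgm : Measurable (fun y : Fin m → ℝ => F (nr y)) := meas_prof hF
  set G : (Fin m → ℝ) → ℝ≥0∞ := fun y => ENNReal.ofReal (F (nr y)) with hG
  have hGm : Measurable G := hgm.ennreal_ofReal
  have hG0 : ∀ y, R1 < nr y → G y = 0 := by
    intro y hy
    simp only [hG]
    rw [hR0 _ ((le_max_left _ _).trans_lt hy), ENNReal.ofReal_zero]
  have hGn : ∀ y : Fin m → ℝ, ‖((F (nr y) : ℝ) : ℂ)‖ₑ = G y := by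
    intro y
    simp only [hG]
    rw [← ofReal_norm, Complex.norm_real, Real.norm_of_nonneg (hg0 y)]
  simp only [hGn]
  have step : ∀ᵐ η : Fin m → ℝ, ENNReal.ofReal ((nr η ^ m) ^ (p - 2) * kp m s2 η ^ p) *
        ‖ftm m (fun y => ((F (nr y) : ℝ) : ℂ)) η‖ₑ ^ p ≤
      (ENNReal.ofReal C1 ^ p * c2 ^ (p - 1)) *
        (ENNReal.ofReal ((1 + nr η) ^ θ * nr η ^ (-A)) * ∫⁻ y, G y ^ p) := by
    filter_upwards [ae_pos hm0] with η hη
    have hk0 : 0 ≤ kp m s2 η := by unfold kp; positivity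
    have hw0 : 0 ≤ (nr η ^ m) ^ (p - 2) * kp m s2 η ^ p := by positivity
    have h1 := point_bound hm0 hball hF hR0 hint η
    have h2 := holder hm0 (A := A) (R1 := R1) hp G hGm hG0 η
    have h3 := J_bound hm0 (γ := γ) hR11 η
    rw [← hγ] at h2
    rw [← hc2] at h3
    set w := ENNReal.ofReal ((nr η ^ m) ^ (p - 2) * kp m s2 η ^ p) with hw
    set b0 := ENNReal.ofReal ((1 + nr η) ^ (-be m)) with hb0
    have hb : 0 < 1 + nr η := by linarith
    calc w * ‖ftm m (fun y => ((F (nr y) : ℝ) : ℂ)) η‖ₑ ^ p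
        ≤ w * (ENNReal.ofReal C1 * ∫⁻ y, G y * ENNReal.ofReal (Kr y η)) ^ p := by
          gcongr
      _ = w * (ENNReal.ofReal C1 ^ p * (∫⁻ y, G y * ENNReal.ofReal (Kr y η)) ^ p) := by
          rw [ENNReal.mul_rpow_of_nonneg _ _ hp0.le]
      _ ≤ w * (ENNReal.ofReal C1 ^ p *
            ((∫⁻ y, G y ^ p * (ENNReal.ofReal (nr y ^ A) * ENNReal.ofReal (Kr y η))) *
              (b0 * c2) ^ (p - 1))) := by
          refine mul_le_mul_right (mul_le_mul_right (h2.trans (mul_le_mul_right ?_ _)) _) _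
          exact ENNReal.rpow_le_rpow h3 hp1.le
      _ = (ENNReal.ofReal C1 ^ p * c2 ^ (p - 1)) * ((w * b0 ^ (p - 1)) *
            ∫⁻ y, G y ^ p * (ENNReal.ofReal (nr y ^ A) * ENNReal.ofReal (Kr y η))) := by
          rw [ENNReal.mul_rpow_of_nonneg _ _ hp1.le]
          ring
      _ ≤ (ENNReal.ofReal C1 ^ p * c2 ^ (p - 1)) *
            (ENNReal.ofReal ((1 + nr η) ^ θ * nr η ^ (-A)) * ∫⁻ y, G y ^ p) := by
          refine mul_le_mul_right ?_ _
          have hwb : w * b0 ^ (p - 1) ≠ ∞ := by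
            refine (ENNReal.mul_lt_top ENNReal.ofReal_lt_top ?_).ne
            exact ENNReal.rpow_lt_top_of_nonneg hp1.le ENNReal.ofReal_ne_top
          rw [← lintegral_const_mul' _ _ hwb, ← lintegral_const_mul' _ _ ENNReal.ofReal_ne_top]
          refine lintegral_mono_ae ?_
          filter_upwards [ae_pos hm0] with y hy
          have h4 := pw (m := m) (s2 := s2) hp hA0 hA3.le hy hη
          have h5 : w * b0 ^ (p - 1) * (ENNReal.ofReal (nr y ^ A) * ENNReal.ofReal (Kr y η)) ≤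
              ENNReal.ofReal ((1 + nr η) ^ θ * nr η ^ (-A)) := by
            rw [hw, hb0, ENNReal.ofReal_rpow_of_nonneg (by positivity) hp1.le,
              ← ENNReal.ofReal_mul hw0,
              ← ENNReal.ofReal_mul (show 0 ≤ nr y ^ A by positivity),
              ← ENNReal.ofReal_mul (by positivity)]
            exact ENNReal.ofReal_le_ofReal h4
          calc w * b0 ^ (p - 1) * (G y ^ p * (ENNReal.ofReal (nr y ^ A) * ENNReal.ofReal (Kr y η)))
              = (w * b0 ^ (p - 1) * (ENNReal.ofReal (nr y ^ A) * ENNReal.ofReal (Kr y η))) *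
                  G y ^ p := by ring
            _ ≤ _ := mul_le_mul_left h5 _
  calc ∫⁻ η : Fin m → ℝ, ENNReal.ofReal ((nr η ^ m) ^ (p - 2) * kp m s2 η ^ p) *
        ‖ftm m (fun y => ((F (nr y) : ℝ) : ℂ)) η‖ₑ ^ p
      ≤ ∫⁻ η : Fin m → ℝ, (ENNReal.ofReal C1 ^ p * c2 ^ (p - 1)) *
        (ENNReal.ofReal ((1 + nr η) ^ θ * nr η ^ (-A)) * ∫⁻ y, G y ^ p) := lintegral_mono_ae step
    _ = K * ∫⁻ y, G y ^ p := by
        rw [lintegral_const_mul' _ _
          (ENNReal.mul_lt_top (ENNReal.rpow_lt_top_of_nonneg hp0.le ENNReal.ofReal_ne_top)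
            (ENNReal.rpow_lt_top_of_nonneg hp1.le hc2f.ne)).ne]
        have hmm : Measurable fun η : Fin m → ℝ =>
            ENNReal.ofReal ((1 + nr η) ^ θ * nr η ^ (-A)) :=
          (((measurable_const.add measurable_nr).pow_const _).mul
            (measurable_nr.pow_const _)).ennreal_ofReal
        rw [lintegral_mul_const _ hmm, ← hc3, hK]
        ring

/-- translation and scaling -/
lemma ftm_shift (b : ℂ) (c : Fin m → ℝ) (f : (Fin m → ℝ) → ℂ) (η : Fin m → ℝ) :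
    ‖ftm m (fun y => b * f (y - c)) η‖ₑ = ‖b‖ₑ * ‖ftm m f η‖ₑ := by
  have h1 : ftm m (fun y => b * f (y - c)) η = b * (e (-(∑ i, c i * η i)) * ftm m f η) := by
    unfold ftm
    rw [← integral_const_mul, ← integral_const_mul]
    rw [← integral_sub_right_eq_self (fun y => b * (e (-(∑ i, c i * η i)) *
      (e (-(∑ i, y i * η i)) * f y))) c]
    refine integral_congr_ae (Filter.Eventually.of_forall fun y => ?_)
    simp only
    have h2 : e (-(∑ i, y i * η i)) = e (-(∑ i, c i * η i)) * e (-(∑ i, (y - c) i * η i)) := by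
      rw [← e_add]
      congr 1
      simp only [Pi.sub_apply, sub_mul, Finset.sum_sub_distrib]
      ring
    rw [h2]
    ring
  rw [h1, enorm_mul, enorm_mul]
  have h2 : ‖e (-(∑ i, c i * η i))‖ₑ = 1 := by
    rw [← ofReal_norm, norm_e, ENNReal.ofReal_one]
  rw [h2, one_mul]

theorem clrk_thm : S_BALL → S_CLRK := by
  intro hB m p s2 R0 hm hp hs2 hs
  have hp0 : 0 < p := by linarith
  obtain ⟨K, hK, hcore⟩ := core (m := m) (R0 := R0) hm hp hs2 hs hB
  refine ⟨K.toReal + 1, by positivity, fun b c F hF hR0 hint => ?_⟩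
  have hKle : K ≤ ENNReal.ofReal (K.toReal + 1) := by
    calc K = ENNReal.ofReal K.toReal := (ENNReal.ofReal_toReal hK.ne).symm
      _ ≤ _ := ENNReal.ofReal_le_ofReal (by linarith)
  have e1 : ∀ η : Fin m → ℝ, ‖ftm m (fun y => b * ((F (nr (y - c)) : ℝ) : ℂ)) η‖ₑ =
      ‖b‖ₑ * ‖ftm m (fun y => ((F (nr y) : ℝ) : ℂ)) η‖ₑ := fun η =>
    ftm_shift b c (fun y => ((F (nr y) : ℝ) : ℂ)) η
  have e2 : ∫⁻ y : Fin m → ℝ, ‖b * ((F (nr (y - c)) : ℝ) : ℂ)‖ₑ ^ p =
      ‖b‖ₑ ^ p * ∫⁻ y : Fin m → ℝ, ‖((F (nr y) : ℝ) : ℂ)‖ₑ ^ p := by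
    rw [lintegral_sub_right_eq_self (fun y : Fin m → ℝ => ‖b * ((F (nr y) : ℝ) : ℂ)‖ₑ ^ p) c,
      ← lintegral_const_mul' _ _ (ENNReal.rpow_lt_top_of_nonneg hp0.le enorm_ne_top).ne]
    refine lintegral_congr fun y => ?_
    rw [enorm_mul, ENNReal.mul_rpow_of_nonneg _ _ hp0.le]
  simp only [e1]
  rw [e2]
  rcases eq_or_ne b 0 with hb | hb
  · subst hb
    have : ∀ η : Fin m → ℝ, ENNReal.ofReal ((nr η ^ m) ^ (p - 2) * kp m s2 η ^ p) *
        (‖(0 : ℂ)‖ₑ * ‖ftm m (fun y => ((F (nr y) : ℝ) : ℂ)) η‖ₑ) ^ p = 0 := by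
      intro η
      rw [enorm_zero, zero_mul, ENNReal.zero_rpow_of_pos hp0, mul_zero]
    simp only [this, lintegral_zero]
    exact zero_le
  have hint2 : Integrable (fun y : Fin m → ℝ => F (nr y)) := by
    have h1 : Integrable (fun y : Fin m → ℝ => ((F (nr (y - c)) : ℝ) : ℂ)) := by
      have := hint.const_mul b⁻¹
      refine this.congr (Filter.Eventually.of_forall fun y => ?_)
      simp only
      rw [← mul_assoc, inv_mul_cancel₀ hb, one_mul]
    have h2 : Integrable (fun y : Fin m → ℝ => ((F (nr y) : ℝ) : ℂ)) := by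
      have := h1.comp_add_right c
      simpa using this
    exact h2.re
  have h3 := hcore F hF hR0 hint2
  calc ∫⁻ η : Fin m → ℝ, ENNReal.ofReal ((nr η ^ m) ^ (p - 2) * kp m s2 η ^ p) *
        (‖b‖ₑ * ‖ftm m (fun y => ((F (nr y) : ℝ) : ℂ)) η‖ₑ) ^ p
      = ‖b‖ₑ ^ p * ∫⁻ η : Fin m → ℝ, ENNReal.ofReal ((nr η ^ m) ^ (p - 2) * kp m s2 η ^ p) *
        ‖ftm m (fun y => ((F (nr y) : ℝ) : ℂ)) η‖ₑ ^ p := by
        rw [← lintegral_const_mul' _ _ (ENNReal.rpow_lt_top_of_nonneg hp0.le enorm_ne_top).ne]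
        refine lintegral_congr fun η => ?_
        rw [ENNReal.mul_rpow_of_nonneg _ _ hp0.le]
        ring
    _ ≤ ‖b‖ₑ ^ p * (K * ∫⁻ y : Fin m → ℝ, ‖((F (nr y) : ℝ) : ℂ)‖ₑ ^ p) := by gcongr
    _ ≤ ‖b‖ₑ ^ p * (ENNReal.ofReal (K.toReal + 1) *
          ∫⁻ y : Fin m → ℝ, ‖((F (nr y) : ℝ) : ℂ)‖ₑ ^ p) := by gcongr
    _ = _ := by ring

end Pool.Agent.TH324.CLRK
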