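import Pool.Agent.TH280.LS.StmC

set_option autoImplicit false

/-! # CLRK, part a: radial integrals in `ℝ^m`, balls -/

open MeasureTheory Set
open scoped ENNReal

namespace Pool.Agent.TH324.CLRK

open Pool.Agent.TH280.LS

variable {m : ℕ}

lemma nr_nonneg (y : Fin m → ℝ) : 0 ≤ nr y := Real.sqrt_nonneg _

lemma continuous_nr : Continuous (nr : (Fin m → ℝ) → ℝ) := by
  unfold nr; fun_prop

lemma measurable_nr : Measurable (nr : (Fin m → ℝ) → ℝ) := continuous_nr.measurable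

/-- coordinates -/
noncomputable def TT (m : ℕ) : EuclideanSpace ℝ (Fin m) ≃ᵐ (Fin m → ℝ) :=
  (MeasurableEquiv.toLp 2 (Fin m → ℝ)).symm

lemma TT_mp : MeasurePreserving (TT m) :=
  EuclideanSpace.volume_preserving_symm_measurableEquiv_toLp (Fin m)

lemma nr_TT (z : EuclideanSpace ℝ (Fin m)) : nr (TT m z) = ‖z‖ := by
  rw [EuclideanSpace.norm_eq]
  unfold nr
  congr 1
  refine Finset.sum_congr rfl fun i _ => ?_
  rw [Real.norm_eq_abs, sq_abs]
  rfl

lemma lint_nr (g : ℝ → ℝ≥0∞) :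
    ∫⁻ y : Fin m → ℝ, g (nr y) = ∫⁻ z : EuclideanSpace ℝ (Fin m), g ‖z‖ := by
  rw [← TT_mp.lintegral_comp_emb (TT m).measurableEmbedding]
  simp only [nr_TT]

lemma fin_rad (hm : 0 < m) (g : ℝ → ℝ)
    (h : IntegrableOn (fun r : ℝ => r ^ (m - 1) * g r) (Ioi 0)) :
    ∫⁻ y : Fin m → ℝ, ENNReal.ofReal (g (nr y)) < ∞ := by
  have : Nonempty (Fin m) := ⟨⟨0, hm⟩⟩
  have : Nontrivial (EuclideanSpace ℝ (Fin m)) := inferInstance
  rw [lint_nr (fun r => ENNReal.ofReal (g r))]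
  have h1 : Integrable (fun z : EuclideanSpace ℝ (Fin m) => g ‖z‖) := by
    rw [integrable_fun_norm_addHaar (volume : Measure (EuclideanSpace ℝ (Fin m)))]
    rw [finrank_euclideanSpace_fin]
    simpa [smul_eq_mul] using h
  exact h1.lintegral_lt_top

/-- volume of the unit ball -/
noncomputable def vb (m : ℕ) : ℝ := (volume (Metric.ball (0 : EuclideanSpace ℝ (Fin m)) 1)).toReal

lemma vb_pos (m : ℕ) : 0 < vb m := by
  unfold vb
  apply ENNReal.toReal_pos
  · exact (Metric.measure_ball_pos volume _ one_pos).ne'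
  · exact measure_ball_lt_top.ne

lemma ball_pre (R : ℝ) : TT m ⁻¹' {y : Fin m → ℝ | nr y ≤ R} = Metric.closedBall 0 R := by
  ext z
  simp [nr_TT]

lemma vol_ball {R : ℝ} (hR : 0 ≤ R) :
    volume {y : Fin m → ℝ | nr y ≤ R} = ENNReal.ofReal (R ^ m * vb m) := by
  have h1 := (TT_mp (m := m)).measure_preimage_equiv {y : Fin m → ℝ | nr y ≤ R}
  rw [← h1, ball_pre, Measure.addHaar_closedBall _ _ hR, finrank_euclideanSpace_fin,
    ENNReal.ofReal_mul (by positivity)]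
  congr 1
  unfold vb
  rw [ENNReal.ofReal_toReal measure_ball_lt_top.ne]

lemma meas_ball (R : ℝ) : MeasurableSet {y : Fin m → ℝ | nr y ≤ R} :=
  measurableSet_le measurable_nr measurable_const

lemma sphere_null (hm : 0 < m) (R : ℝ) : volume {y : Fin m → ℝ | nr y = R} = 0 := by
  have : Nonempty (Fin m) := ⟨⟨0, hm⟩⟩
  have : Nontrivial (EuclideanSpace ℝ (Fin m)) := inferInstance
  have h1 := (TT_mp (m := m)).measure_preimage_equiv {y : Fin m → ℝ | nr y = R}
  have h2 : TT m ⁻¹' {y : Fin m → ℝ | nr y = R} = Metric.sphere 0 R := by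
    ext z
    simp [nr_TT]
  rw [← h1, h2]
  exact Measure.addHaar_sphere _ _ _

lemma ae_pos (hm : 0 < m) : ∀ᵐ y : Fin m → ℝ, 0 < nr y := by
  have h : volume {y : Fin m → ℝ | nr y = 0} = 0 := sphere_null hm 0
  have : ∀ᵐ y : Fin m → ℝ, ¬ nr y = 0 := by
    rw [ae_iff]
    simpa using h
  filter_upwards [this] with y hy
  exact lt_of_le_of_ne (nr_nonneg y) (Ne.symm hy)

/-- `∫_{|y| ≤ R} |y|^{-γ} dy < ∞` for `γ < m` -/
lemma fin_ball (hm : 0 < m) {γ R : ℝ} (hγ : γ < m) :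
    ∫⁻ y in {y : Fin m → ℝ | nr y ≤ R}, ENNReal.ofReal (nr y ^ (-γ)) < ∞ := by
  have h1 : ∫⁻ y in {y : Fin m → ℝ | nr y ≤ R}, ENNReal.ofReal (nr y ^ (-γ)) =
      ∫⁻ y : Fin m → ℝ, ENNReal.ofReal ((Iic R).indicator (fun r => r ^ (-γ)) (nr y)) := by
    rw [← lintegral_indicator (meas_ball R)]
    refine lintegral_congr fun y => ?_
    by_cases h : nr y ≤ R
    · rw [indicator_of_mem (by exact h), indicator_of_mem (by exact h)]
    · rw [indicator_of_notMem (by exact h), indicator_of_notMem (by exact h), ENNReal.ofReal_zero]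
  rw [h1]
  apply fin_rad hm
  have h2 : (fun r : ℝ => r ^ (m - 1) * (Iic R).indicator (fun r => r ^ (-γ)) r) =
      (Iic R).indicator (fun r : ℝ => r ^ (m - 1) * r ^ (-γ)) := by
    funext r
    by_cases h : r ≤ R
    · rw [indicator_of_mem (by exact h), indicator_of_mem (by exact h)]
    · rw [indicator_of_notMem (by exact h), indicator_of_notMem (by exact h), mul_zero]
  rw [h2, ← integrable_indicator_iff measurableSet_Ioi, indicator_indicator, Ioi_inter_Iic,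
    integrable_indicator_iff measurableSet_Ioc]
  rcases le_or_gt R 0 with hR | hR
  · rw [Ioc_eq_empty (by linarith)]
    exact integrableOn_empty
  have h3 : IntervalIntegrable (fun r : ℝ => r ^ ((m : ℝ) - 1 - γ)) volume 0 R :=
    intervalIntegral.intervalIntegrable_rpow' (by linarith)
  rw [intervalIntegrable_iff_integrableOn_Ioc_of_le hR.le] at h3
  refine h3.congr_fun (fun r hr => ?_) measurableSet_Ioc
  have hm1 : ((m - 1 : ℕ) : ℝ) = (m : ℝ) - 1 := by
    rw [Nat.cast_sub (by omega)]; simp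
  show r ^ ((m : ℝ) - 1 - γ) = r ^ (m - 1) * r ^ (-γ)
  rw [← Real.rpow_natCast, ← Real.rpow_add hr.1, hm1]
  congr 1

/-- `∫ (1+|η|)^θ |η|^{-A} dη < ∞` -/
lemma fin_all (hm : 0 < m) {θ A : ℝ} (hA : A < m) (h : θ - A < -m) :
    ∫⁻ y : Fin m → ℝ, ENNReal.ofReal ((1 + nr y) ^ θ * nr y ^ (-A)) < ∞ := by
  apply fin_rad hm (fun r => (1 + r) ^ θ * r ^ (-A))
  have hm1 : ((m - 1 : ℕ) : ℝ) = (m : ℝ) - 1 := by
    rw [Nat.cast_sub (by omega)]; simp
  have hmeas : Measurable (fun r : ℝ => r ^ (m - 1) * ((1 + r) ^ θ * r ^ (-A))) := by fun_prop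
  have h1 : IntegrableOn (fun r : ℝ => r ^ (m - 1) * ((1 + r) ^ θ * r ^ (-A))) (Ioc 0 1) := by
    have h3 : IntervalIntegrable (fun r : ℝ => 2 ^ |θ| * r ^ ((m : ℝ) - 1 - A)) volume 0 1 :=
      (intervalIntegral.intervalIntegrable_rpow' (by linarith)).const_mul _
    rw [intervalIntegrable_iff_integrableOn_Ioc_of_le zero_le_one] at h3
    refine Integrable.mono' h3 hmeas.aestronglyMeasurable ?_
    rw [ae_restrict_iff' measurableSet_Ioc]
    refine Filter.Eventually.of_forall fun r hr => ?_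
    have hr0 : 0 < r := hr.1
    rw [Real.norm_of_nonneg (by positivity)]
    have h4 : (1 + r) ^ θ ≤ 2 ^ |θ| := by
      calc (1 + r) ^ θ ≤ (1 + r) ^ |θ| :=
            Real.rpow_le_rpow_of_exponent_le (by linarith) (le_abs_self θ)
        _ ≤ 2 ^ |θ| := Real.rpow_le_rpow (by linarith) (by linarith [hr.2]) (abs_nonneg θ)
    have h5 : r ^ (m - 1) * r ^ (-A) = r ^ ((m : ℝ) - 1 - A) := by
      rw [← Real.rpow_natCast, ← Real.rpow_add hr0, hm1]
      congr 1
    calc r ^ (m - 1) * ((1 + r) ^ θ * r ^ (-A)) = (1 + r) ^ θ * (r ^ (m - 1) * r ^ (-A)) := by ring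
      _ ≤ 2 ^ |θ| * (r ^ (m - 1) * r ^ (-A)) := by gcongr
      _ = 2 ^ |θ| * r ^ ((m : ℝ) - 1 - A) := by rw [h5]
  have h2 : IntegrableOn (fun r : ℝ => r ^ (m - 1) * ((1 + r) ^ θ * r ^ (-A))) (Ioi 1) := by
    have h3 : IntegrableOn (fun r : ℝ => 2 ^ |θ| * r ^ ((m : ℝ) - 1 + (θ - A))) (Ioi 1) :=
      (integrableOn_Ioi_rpow_of_lt (by linarith) one_pos).const_mul _
    refine Integrable.mono' h3 hmeas.aestronglyMeasurable ?_
    rw [ae_restrict_iff' measurableSet_Ioi]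
    refine Filter.Eventually.of_forall fun r hr => ?_
    have hr1 : 1 < r := hr
    have hr0 : 0 < r := by linarith
    rw [Real.norm_of_nonneg (by positivity)]
    have h4 : (1 + r) ^ θ ≤ 2 ^ |θ| * r ^ θ := by
      rcases le_total 0 θ with h0 | h0
      · rw [abs_of_nonneg h0, ← Real.mul_rpow (by norm_num) hr0.le]
        exact Real.rpow_le_rpow (by linarith) (by linarith) h0
      · have h6 : (1 + r) ^ θ ≤ r ^ θ := Real.rpow_le_rpow_of_nonpos hr0 (by linarith) h0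
        have h7 : (1 : ℝ) ≤ 2 ^ |θ| := Real.one_le_rpow (by norm_num) (abs_nonneg θ)
        have h8 : 0 ≤ r ^ θ := by positivity
        nlinarith
    have h5 : r ^ (m - 1) * (r ^ θ * r ^ (-A)) = r ^ ((m : ℝ) - 1 + (θ - A)) := by
      rw [← Real.rpow_natCast, ← Real.rpow_add hr0, ← Real.rpow_add hr0, hm1]
      congr 1
    calc r ^ (m - 1) * ((1 + r) ^ θ * r ^ (-A)) ≤
          r ^ (m - 1) * ((2 ^ |θ| * r ^ θ) * r ^ (-A)) := by gcongr
      _ = 2 ^ |θ| * (r ^ (m - 1) * (r ^ θ * r ^ (-A))) := by ring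
      _ = 2 ^ |θ| * r ^ ((m : ℝ) - 1 + (θ - A)) := by rw [h5]
  have h3 := h1.union h2
  rwa [Ioc_union_Ioi_eq_Ioi zero_le_one] at h3

end Pool.Agent.TH324.CLRK
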