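import Pool.Agent.TH324.LS.LSC_CLRKa

set_option autoImplicit false

/-! # CLRK, part b: pointwise bound of the Fourier transform of a radially decreasing function -/

open MeasureTheory Set
open scoped ENNReal

namespace Pool.Agent.TH324.CLRK

open Pool.Agent.TH280.LS

variable {m : ℕ}

/-- the exponent `(m+1)/2` -/
noncomputable def be (m : ℕ) : ℝ := ((m : ℝ) + 1) / 2

lemma be_pos (m : ℕ) : 0 < be m := by unfold be; positivity

/-- the kernel `(1+|y||η|)^{-(m+1)/2}` -/
noncomputable def Kr (y η : Fin m → ℝ) : ℝ := (1 + nr y * nr η) ^ (-be m)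

lemma one_le_base (y η : Fin m → ℝ) : 1 ≤ 1 + nr y * nr η := by
  have := mul_nonneg (nr_nonneg y) (nr_nonneg η)
  linarith

lemma Kr_pos (y η : Fin m → ℝ) : 0 < Kr y η :=
  Real.rpow_pos_of_pos (by linarith [one_le_base y η]) _

lemma Kr_meas : Measurable (Function.uncurry (Kr : (Fin m → ℝ) → (Fin m → ℝ) → ℝ)) := by
  unfold Kr Function.uncurry
  have h1 : Measurable fun a : (Fin m → ℝ) × (Fin m → ℝ) => nr a.1 := measurable_nr.comp measurable_fst
  have h2 : Measurable fun a : (Fin m → ℝ) × (Fin m → ℝ) => nr a.2 := measurable_nr.comp measurable_snd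
  exact (measurable_const.add (h1.mul h2)).pow_const _

lemma Kr_meas_y (η : Fin m → ℝ) : Measurable fun y => Kr y η := by
  unfold Kr
  exact (measurable_const.add (measurable_nr.mul_const _)).pow_const _

lemma ball_bound (hB : S_BALL) (hm : 0 < m) : ∃ C1 : ℝ, 0 < C1 ∧ ∀ (R : ℝ) (η : Fin m → ℝ), 0 ≤ R →
    ‖ftm m ({y : Fin m → ℝ | nr y ≤ R}.indicator 1) η‖ₑ ≤
      ENNReal.ofReal C1 * ∫⁻ y in {y : Fin m → ℝ | nr y ≤ R}, ENNReal.ofReal (Kr y η) := by
  obtain ⟨C, hC, h⟩ := hB m hm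
  have hv := vb_pos m
  refine ⟨C / vb m, by positivity, fun R η hR => ?_⟩
  have h1 : ENNReal.ofReal ((1 + R * nr η) ^ (-be m)) * ENNReal.ofReal (R ^ m * vb m) ≤
      ∫⁻ y in {y : Fin m → ℝ | nr y ≤ R}, ENNReal.ofReal (Kr y η) := by
    rw [← vol_ball hR, ← setLIntegral_const]
    refine setLIntegral_mono' (meas_ball R) fun y hy => ?_
    apply ENNReal.ofReal_le_ofReal
    unfold Kr
    apply Real.rpow_le_rpow_of_nonpos (by linarith [one_le_base y η])
    · have : nr y * nr η ≤ R * nr η := mul_le_mul_of_nonneg_right hy (nr_nonneg η)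
      linarith
    · have := be_pos m
      linarith
  have h2 := h R η hR
  have hRn : 0 ≤ R * nr η := mul_nonneg hR (nr_nonneg η)
  have h3 : 0 ≤ (1 + R * nr η) ^ (-be m) := Real.rpow_nonneg (by linarith) _
  calc ‖ftm m ({y : Fin m → ℝ | nr y ≤ R}.indicator 1) η‖ₑ
      = ENNReal.ofReal ‖ftm m ({y : Fin m → ℝ | nr y ≤ R}.indicator 1) η‖ := by
        rw [ofReal_norm]
    _ ≤ ENNReal.ofReal (C * R ^ m * (1 + R * nr η) ^ (-be m)) := ENNReal.ofReal_le_ofReal h2
    _ = ENNReal.ofReal ((C / vb m) * ((1 + R * nr η) ^ (-be m) * (R ^ m * vb m))) := by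
        congr 1
        field_simp
    _ = ENNReal.ofReal (C / vb m) * (ENNReal.ofReal ((1 + R * nr η) ^ (-be m)) *
          ENNReal.ofReal (R ^ m * vb m)) := by
        rw [ENNReal.ofReal_mul (by positivity), ENNReal.ofReal_mul h3]
    _ ≤ _ := mul_le_mul_right h1 _

lemma ftm_congr {f g : (Fin m → ℝ) → ℂ} (h : f =ᵐ[volume] g) (η : Fin m → ℝ) :
    ftm m f η = ftm m g η := by
  unfold ftm
  refine integral_congr_ae ?_
  filter_upwards [h] with y hy
  rw [hy]

/-- superlevel sets -/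
lemma level_bound (hm : 0 < m) {C1 : ℝ} (hC1 : ∀ (R : ℝ) (η : Fin m → ℝ), 0 ≤ R →
    ‖ftm m ({y : Fin m → ℝ | nr y ≤ R}.indicator 1) η‖ₑ ≤
      ENNReal.ofReal C1 * ∫⁻ y in {y : Fin m → ℝ | nr y ≤ R}, ENNReal.ofReal (Kr y η))
    {F : ℝ → ℝ} (hF : AntitoneOn F (Ici 0)) {R0 : ℝ} (hR0 : ∀ r, R0 < r → F r = 0)
    {lam : ℝ} (hlam : 0 < lam) (η : Fin m → ℝ) :
    ‖ftm m ({y : Fin m → ℝ | lam < F (nr y)}.indicator 1) η‖ₑ ≤
      ENNReal.ofReal C1 * ∫⁻ y in {y : Fin m → ℝ | lam < F (nr y)}, ENNReal.ofReal (Kr y η) := by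
  set S : Set ℝ := {r | 0 ≤ r ∧ lam < F r} with hS
  rcases S.eq_empty_or_nonempty with hE | hE
  · have h1 : {y : Fin m → ℝ | lam < F (nr y)} = ∅ := by
      ext y
      simp only [mem_ofPred_eq, mem_empty_iff_false, iff_false]
      intro hy
      have : nr y ∈ S := ⟨nr_nonneg y, hy⟩
      rw [hE] at this
      exact this
    rw [h1]
    unfold ftm
    simp
  · have hbdd : BddAbove S := by
      refine ⟨R0, fun r hr => ?_⟩
      by_contra hc
      push Not at hc
      have := hR0 r hc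
      have h2 := hr.2
      rw [this] at h2
      linarith
    set R := sSup S with hR
    have hRnn : 0 ≤ R := by
      obtain ⟨r, hr⟩ := hE
      exact hr.1.trans (le_csSup hbdd hr)
    have hdown : ∀ r, 0 ≤ r → r < R → lam < F r := by
      intro r hr0 hr
      obtain ⟨r', hr', hlt⟩ := exists_lt_of_lt_csSup hE hr
      exact hr'.2.trans_le (hF (mem_Ici.2 hr0) (mem_Ici.2 hr'.1) hlt.le)
    have hae : ({y : Fin m → ℝ | lam < F (nr y)} : Set (Fin m → ℝ)) =ᵐ[volume]
        {y : Fin m → ℝ | nr y ≤ R} := by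
      have hnull : ∀ᵐ y : Fin m → ℝ, nr y ≠ R := by
        rw [ae_iff]
        simpa using sphere_null hm R
      filter_upwards [hnull] with y hy
      apply propext
      constructor
      · intro h
        exact le_csSup hbdd ⟨nr_nonneg y, h⟩
      · intro h
        exact hdown _ (nr_nonneg y) (lt_of_le_of_ne h hy)
    have h2 : ftm m ({y : Fin m → ℝ | lam < F (nr y)}.indicator 1) η =
        ftm m ({y : Fin m → ℝ | nr y ≤ R}.indicator 1) η :=
      ftm_congr (indicator_ae_eq_of_ae_eq_set hae) η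
    rw [h2, setLIntegral_congr hae]
    exact hC1 R η hRnn

/-- a measurable version of the profile -/
lemma meas_prof {F : ℝ → ℝ} (hF : AntitoneOn F (Ici 0)) :
    Measurable (fun y : Fin m → ℝ => F (nr y)) := by
  have h1 : Antitone (fun r : ℝ => F (max r 0)) := by
    intro r r' h
    exact hF (mem_Ici.2 (le_max_right _ _)) (mem_Ici.2 (le_max_right _ _)) (max_le_max h le_rfl)
  have h2 : (fun y : Fin m → ℝ => F (nr y)) = (fun r : ℝ => F (max r 0)) ∘ nr := by
    funext y
    simp only [Function.comp_apply, max_eq_left (nr_nonneg y)]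
  rw [h2]
  exact h1.measurable.comp measurable_nr

lemma prof_nonneg {F : ℝ → ℝ} (hF : AntitoneOn F (Ici 0)) {R0 : ℝ} (hR0 : ∀ r, R0 < r → F r = 0)
    {r : ℝ} (hr : 0 ≤ r) : 0 ≤ F r := by
  have h1 : R0 < max r (R0 + 1) := by
    have := le_max_right r (R0 + 1)
    linarith
  rw [← hR0 _ h1]
  exact hF (mem_Ici.2 hr) (mem_Ici.2 (hr.trans (le_max_left _ _))) (le_max_left _ _)

lemma lay (a : ℝ) (ha : 0 ≤ a) : ∫ lam in Ioi (0 : ℝ), (if lam < a then (1 : ℂ) else 0) = (a : ℂ) := by
  have h1 : (fun lam : ℝ => if lam < a then (1 : ℂ) else 0) = (Iio a).indicator (fun _ => (1 : ℂ)) := by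
    funext lam
    by_cases h : lam < a
    · rw [if_pos h, indicator_of_mem (by exact h)]
    · rw [if_neg h, indicator_of_notMem (by exact h)]
  rw [h1, setIntegral_indicator measurableSet_Iio, Ioi_inter_Iio, setIntegral_const]
  simp [ha]

lemma layL (a : ℝ) : ∫⁻ lam in Ioi (0 : ℝ), (if lam < a then (1 : ℝ≥0∞) else 0) =
    ENNReal.ofReal a := by
  have h1 : (fun lam : ℝ => if lam < a then (1 : ℝ≥0∞) else 0) =
      (Iio a).indicator (fun _ => (1 : ℝ≥0∞)) := by
    funext lam
    by_cases h : lam < a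
    · rw [if_pos h, indicator_of_mem (by exact h)]
    · rw [if_neg h, indicator_of_notMem (by exact h)]
  rw [h1, setLIntegral_indicator measurableSet_Iio, setLIntegral_const, one_mul, inter_comm,
    Ioi_inter_Iio, Real.volume_Ioo, sub_zero]

theorem point_bound (hm : 0 < m) {C1 : ℝ} (hC1 : ∀ (R : ℝ) (η : Fin m → ℝ), 0 ≤ R →
    ‖ftm m ({y : Fin m → ℝ | nr y ≤ R}.indicator 1) η‖ₑ ≤
      ENNReal.ofReal C1 * ∫⁻ y in {y : Fin m → ℝ | nr y ≤ R}, ENNReal.ofReal (Kr y η))
    {F : ℝ → ℝ} (hF : AntitoneOn F (Ici 0)) {R0 : ℝ} (hR0 : ∀ r, R0 < r → F r = 0)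
    (hint : Integrable (fun y : Fin m → ℝ => F (nr y))) (η : Fin m → ℝ) :
    ‖ftm m (fun y => ((F (nr y) : ℝ) : ℂ)) η‖ₑ ≤
      ENNReal.ofReal C1 * ∫⁻ y : Fin m → ℝ, ENNReal.ofReal (F (nr y)) * ENNReal.ofReal (Kr y η) := by
  have hg0 : ∀ y : Fin m → ℝ, 0 ≤ F (nr y) := fun y => prof_nonneg hF hR0 (nr_nonneg y)
  have hgm : Measurable (fun y : Fin m → ℝ => F (nr y)) := meas_prof hF
  -- the joint function
  have hset : MeasurableSet {q : (Fin m → ℝ) × ℝ | q.2 < F (nr q.1)} :=
    measurableSet_lt measurable_snd (hgm.comp measurable_fst)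
  have hχm : Measurable fun q : (Fin m → ℝ) × ℝ => (if q.2 < F (nr q.1) then (1 : ℂ) else 0) :=
    Measurable.ite hset measurable_const measurable_const
  have hem : Measurable fun q : (Fin m → ℝ) × ℝ => e (-(∑ i, q.1 i * η i)) := by
    apply measurable_e.comp
    fun_prop
  have hjm : Measurable fun q : (Fin m → ℝ) × ℝ =>
      e (-(∑ i, q.1 i * η i)) * (if q.2 < F (nr q.1) then (1 : ℂ) else 0) := hem.mul hχm
  have hji : Integrable (Function.uncurry fun (y : Fin m → ℝ) (lam : ℝ) =>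
      e (-(∑ i, y i * η i)) * (if lam < F (nr y) then (1 : ℂ) else 0))
      (volume.prod (volume.restrict (Ioi (0 : ℝ)))) := by
    refine ⟨hjm.aestronglyMeasurable, ?_⟩
    unfold HasFiniteIntegral
    have hjm' : Measurable (Function.uncurry fun (y : Fin m → ℝ) (lam : ℝ) =>
      e (-(∑ i, y i * η i)) * (if lam < F (nr y) then (1 : ℂ) else 0)) := hjm
    rw [lintegral_prod _ hjm'.enorm.aemeasurable]
    have h1 : ∀ y : Fin m → ℝ, ∫⁻ lam in Ioi (0 : ℝ), ‖Function.uncurry (fun (y : Fin m → ℝ) (lam : ℝ) =>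
        e (-(∑ i, y i * η i)) * (if lam < F (nr y) then (1 : ℂ) else 0)) (y, lam)‖ₑ =
        ENNReal.ofReal (F (nr y)) := by
      intro y
      rw [← layL]
      refine lintegral_congr fun lam => ?_
      simp only [Function.uncurry_apply_pair]
      rw [enorm_mul]
      have h2 : ‖e (-(∑ i, y i * η i))‖ₑ = 1 := by
        rw [← ofReal_norm, norm_e, ENNReal.ofReal_one]
      rw [h2, one_mul]
      split_ifs <;> simp
    simp only [h1]
    exact hint.lintegral_lt_top
  have e1 : ftm m (fun y => ((F (nr y) : ℝ) : ℂ)) η =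
      ∫ lam in Ioi (0 : ℝ), ftm m ({y : Fin m → ℝ | lam < F (nr y)}.indicator 1) η := by
    unfold ftm
    have h1 : ∀ y : Fin m → ℝ, e (-(∑ i, y i * η i)) * ((F (nr y) : ℝ) : ℂ) =
        ∫ lam in Ioi (0 : ℝ), e (-(∑ i, y i * η i)) * (if lam < F (nr y) then (1 : ℂ) else 0) := by
      intro y
      rw [integral_const_mul, lay _ (hg0 y)]
    simp only [h1]
    rw [integral_integral_swap hji]
    refine integral_congr_ae (Filter.Eventually.of_forall fun lam => ?_)
    refine integral_congr_ae (Filter.Eventually.of_forall fun y => ?_)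
    simp only
    congr 1
  rw [e1]
  refine (enorm_integral_le_lintegral_enorm _).trans ?_
  calc ∫⁻ lam in Ioi (0 : ℝ), ‖ftm m ({y : Fin m → ℝ | lam < F (nr y)}.indicator 1) η‖ₑ
      ≤ ∫⁻ lam in Ioi (0 : ℝ), ENNReal.ofReal C1 *
          ∫⁻ y in {y : Fin m → ℝ | lam < F (nr y)}, ENNReal.ofReal (Kr y η) :=
        setLIntegral_mono' measurableSet_Ioi fun lam hlam => level_bound hm hC1 hF hR0 hlam η
    _ = ENNReal.ofReal C1 * ∫⁻ lam in Ioi (0 : ℝ), ∫⁻ y : Fin m → ℝ,
          (if lam < F (nr y) then (1 : ℝ≥0∞) else 0) * ENNReal.ofReal (Kr y η) := by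
        rw [lintegral_const_mul' _ _ ENNReal.ofReal_ne_top]
        congr 1
        refine lintegral_congr fun lam => ?_
        have hs : MeasurableSet {y : Fin m → ℝ | lam < F (nr y)} :=
          measurableSet_lt measurable_const hgm
        rw [← lintegral_indicator hs]
        refine lintegral_congr fun y => ?_
        by_cases h : lam < F (nr y)
        · rw [if_pos h, indicator_of_mem (by exact h), one_mul]
        · rw [if_neg h, indicator_of_notMem (by exact h), zero_mul]
    _ = ENNReal.ofReal C1 * ∫⁻ y : Fin m → ℝ, ∫⁻ lam in Ioi (0 : ℝ),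
          (if lam < F (nr y) then (1 : ℝ≥0∞) else 0) * ENNReal.ofReal (Kr y η) := by
        congr 1
        rw [lintegral_lintegral_swap]
        apply Measurable.aemeasurable
        have hset' : MeasurableSet {q : ℝ × (Fin m → ℝ) | q.1 < F (nr q.2)} :=
          measurableSet_lt measurable_fst (hgm.comp measurable_snd)
        exact (Measurable.ite hset' measurable_const measurable_const).mul
          ((Kr_meas_y η).ennreal_ofReal.comp measurable_snd)
    _ = _ := by
        congr 1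
        refine lintegral_congr fun y => ?_
        rw [lintegral_mul_const', layL]
        exact ENNReal.ofReal_ne_top

end Pool.Agent.TH324.CLRK
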